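import Pool.Agent.Helper730_SG.Defs

/-!
# Basic facts on strongly continuous groups and their generators
-/

set_option autoImplicit false

namespace Pool.Agent.Helper730_SG

open Filter Topology MeasureTheory intervalIntegral

variable {E : Type*} [NormedAddCommGroup E] [InnerProductSpace ℂ E] [CompleteSpace E]
  {T : ℝ → E →L[ℂ] E}

theorem IsC0Group.apply_add (hT : IsC0Group T) (s t : ℝ) (x : E) : T (s + t) x = T s (T t x) := by
  rw [hT.add]; rfl

theorem IsC0Group.exists_bound (hT : IsC0Group T) :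
    ∃ M : ℝ, 1 ≤ M ∧ ∀ s ∈ Set.Icc (-1 : ℝ) 1, ‖T s‖ ≤ M := by
  obtain ⟨C, hC⟩ := banach_steinhaus (g := fun s : Set.Icc (-1 : ℝ) 1 => T s) (fun x => by
    obtain ⟨C, hC⟩ := (isCompact_Icc (a := (-1 : ℝ)) (b := 1)).exists_bound_of_continuousOn
      (hT.continuous x).continuousOn
    exact ⟨C, fun i => hC i i.2⟩)
  exact ⟨max C 1, le_max_right _ _, fun s hs => (hC ⟨s, hs⟩).trans (le_max_left _ _)⟩

theorem IsC0Group.inv_apply (hT : IsC0Group T) (s : ℝ) (x : E) : T (-s) (T s x) = x := by
  rw [← hT.apply_add, neg_add_cancel, hT.zero]; rfl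

/-- orbits of vectors in the domain are differentiable everywhere -/
theorem HasGen.hasDerivAt (hT : IsC0Group T) {x y : E} (h : HasGen T x y) (s : ℝ) :
    HasDerivAt (fun t : ℝ => T t x) (T s y) s := by
  have h1 : HasDerivAt (fun t : ℝ => T (t - s) x) y s := by
    have : HasDerivAt (fun t : ℝ => T t x) y (s - s) := by rw [sub_self]; exact h
    exact this.comp_sub_const s s
  have h2 : HasDerivAt (fun t : ℝ => ((T s).restrictScalars ℝ) (T (t - s) x))
      (((T s).restrictScalars ℝ) y) s :=
    ((T s).restrictScalars ℝ).hasFDerivAt.comp_hasDerivAt s h1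
  have h3 : (fun t : ℝ => ((T s).restrictScalars ℝ) (T (t - s) x)) = fun t => T t x := by
    funext t
    change T s (T (t - s) x) = T t x
    rw [← hT.apply_add, add_sub_cancel]
  rw [h3] at h2
  exact h2

/-- the integrand `e^{-zs} T_s x` -/
noncomputable def orb (T : ℝ → E →L[ℂ] E) (z : ℂ) (x : E) (s : ℝ) : E :=
  Complex.exp (-z * s) • T s x

theorem IsC0Group.continuous_orb (hT : IsC0Group T) (z : ℂ) (x : E) : Continuous (orb T z x) := by
  unfold orb
  exact (by fun_prop : Continuous fun s : ℝ => Complex.exp (-z * s)).smul (hT.continuous x)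

theorem orb_norm_le (z : ℂ) (x : E) {M : ℝ} (hM : ∀ s ∈ Set.Icc (-1 : ℝ) 1, ‖T s‖ ≤ M) (hM1 : 1 ≤ M)
    {s : ℝ} (hs : s ∈ Set.Icc (0 : ℝ) 1) : ‖orb T z x s‖ ≤ Real.exp |z.re| * M * ‖x‖ := by
  unfold orb
  rw [norm_smul, mul_assoc]
  have h1 : ‖Complex.exp (-z * s)‖ ≤ Real.exp |z.re| := by
    rw [Complex.norm_exp]
    apply Real.exp_le_exp.2
    have : (-z * (s : ℂ)).re = -z.re * s := by simp
    rw [this]
    calc -z.re * s ≤ |z.re| * s := by
          apply mul_le_mul_of_nonneg_right (neg_le_abs _) hs.1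
      _ ≤ |z.re| * 1 := by apply mul_le_mul_of_nonneg_left hs.2 (abs_nonneg _)
      _ = |z.re| := mul_one _
  have h2 : ‖T s x‖ ≤ M * ‖x‖ := (T s).le_of_opNorm_le (hM s ⟨by linarith [hs.1], hs.2⟩) x
  exact mul_le_mul h1 h2 (norm_nonneg _) (Real.exp_pos _).le

/-- the operator `J_z x = ∫_0^1 e^{-zs} T_s x ds` -/
noncomputable def J (hT : IsC0Group T) (z : ℂ) : E →L[ℂ] E :=
  LinearMap.mkContinuousOfExistsBound
    { toFun := fun x => ∫ s in (0 : ℝ)..1, orb T z x s
      map_add' := by
        intro x y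
        rw [← intervalIntegral.integral_add ((hT.continuous_orb z x).intervalIntegrable _ _)
          ((hT.continuous_orb z y).intervalIntegrable _ _)]
        congr 1
        funext s
        simp [orb]
      map_smul' := by
        intro c x
        rw [RingHom.id_apply, ← intervalIntegral.integral_smul]
        congr 1
        funext s
        simp only [orb, map_smul]
        rw [smul_comm] }
    (by
      obtain ⟨M, hM1, hM⟩ := hT.exists_bound
      refine ⟨Real.exp |z.re| * M, fun x => ?_⟩
      have := intervalIntegral.norm_integral_le_of_norm_le_const (a := (0 : ℝ)) (b := 1)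
        (f := orb T z x) (C := Real.exp |z.re| * M * ‖x‖) (by
          intro s hs
          rw [Set.uIoc_of_le zero_le_one] at hs
          exact orb_norm_le z x hM hM1 ⟨hs.1.le, hs.2⟩)
      simpa using this)

theorem J_apply (hT : IsC0Group T) (z : ℂ) (x : E) :
    J hT z x = ∫ s in (0 : ℝ)..1, orb T z x s := rfl

theorem J_hasGen (hT : IsC0Group T) (z : ℂ) (x : E) :
    HasGen T (J hT z x) (z • J hT z x - (x - Complex.exp (-z) • T 1 x)) := by
  have hc := hT.continuous_orb z x
  have h1 : ∀ h : ℝ, T h (J hT z x) = Complex.exp (z * h) •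
      ((∫ s in (0 : ℝ)..(1 + h), orb T z x s) - ∫ s in (0 : ℝ)..h, orb T z x s) := by
    intro h
    rw [J_apply, ← ContinuousLinearMap.intervalIntegral_comp_comm _ (hc.intervalIntegrable _ _)]
    have e1 : (fun s => T h (orb T z x s)) = fun s => Complex.exp (z * h) • orb T z x (s + h) := by
      funext s
      simp only [orb, map_smul]
      rw [← hT.apply_add, smul_smul, ← Complex.exp_add, add_comm h s]
      congr 2
      push_cast
      ring
    rw [e1, intervalIntegral.integral_smul, intervalIntegral.integral_comp_add_right, zero_add]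
    congr 1
    rw [eq_sub_iff_add_eq, add_comm, intervalIntegral.integral_add_adjacent_intervals
      (hc.intervalIntegrable _ _) (hc.intervalIntegrable _ _)]
  have h2 : HasDerivAt (fun h : ℝ => (∫ s in (0 : ℝ)..(1 + h), orb T z x s) -
      ∫ s in (0 : ℝ)..h, orb T z x s) (orb T z x 1 - orb T z x 0) 0 := by
    apply HasDerivAt.sub
    · have : HasDerivAt (fun u : ℝ => ∫ s in (0 : ℝ)..u, orb T z x s) (orb T z x (1 + 0)) (1 + 0) :=
        (hc.integral_hasStrictDerivAt 0 (1 + 0)).hasDerivAt
      simpa using this.comp_const_add 1 0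
    · exact (hc.integral_hasStrictDerivAt 0 0).hasDerivAt
  have h3 : HasDerivAt (fun h : ℝ => Complex.exp (z * h)) z 0 := by
    have h4 : HasDerivAt (fun h : ℝ => z * (h : ℂ)) (z * 1) 0 :=
      (Complex.ofRealCLM.hasDerivAt (x := (0 : ℝ))).const_mul z
    have h5 := h4.cexp
    simpa using h5
  have h6 := h3.smul h2
  unfold HasGen
  have h7 : (fun t : ℝ => T t (J hT z x)) = fun h : ℝ => Complex.exp (z * h) •
      ((∫ s in (0 : ℝ)..(1 + h), orb T z x s) - ∫ s in (0 : ℝ)..h, orb T z x s) := funext h1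
  rw [h7]
  have h8 : HasDerivAt (fun h : ℝ => Complex.exp (z * h) •
      ((∫ s in (0 : ℝ)..(1 + h), orb T z x s) - ∫ s in (0 : ℝ)..h, orb T z x s)) _ 0 := h6
  convert h8 using 1
  simp only [orb, Complex.ofReal_zero, mul_zero, Complex.exp_zero, one_smul, add_zero,
    intervalIntegral.integral_same, sub_zero, Complex.ofReal_one, mul_one, hT.zero,
    one_apply_eq_self, J_apply]
  abel

theorem J_of_hasGen (hT : IsC0Group T) (z : ℂ) {x y : E} (h : HasGen T x y) :
    J hT z (z • x - y) = x - Complex.exp (-z) • T 1 x := by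
  have h1 : ∀ s : ℝ, HasDerivAt (fun s : ℝ => -(orb T z x s)) (orb T z (z • x - y) s) s := by
    intro s
    have h3 : HasDerivAt (fun h : ℝ => Complex.exp (-z * h)) (Complex.exp (-z * s) * (-z)) s := by
      have h4 : HasDerivAt (fun h : ℝ => -z * (h : ℂ)) (-z * 1) s :=
        (Complex.ofRealCLM.hasDerivAt (x := s)).const_mul (-z)
      have h5 := h4.cexp
      simpa using h5
    have h6 := (h3.smul (h.hasDerivAt hT s)).neg
    have h7 : HasDerivAt (fun s : ℝ => -(orb T z x s)) _ s := h6
    convert h7 using 1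
    simp only [orb, map_sub, map_smul, smul_sub, smul_smul]
    rw [neg_add, mul_neg, neg_smul, neg_neg]
    abel
  rw [J_apply, intervalIntegral.integral_eq_sub_of_hasDerivAt (fun s _ => h1 s)
    ((hT.continuous_orb z _).intervalIntegrable _ _)]
  simp only [orb, Complex.ofReal_zero, mul_zero, Complex.exp_zero, one_smul, Complex.ofReal_one,
    mul_one, hT.zero, one_apply_eq_self]
  abel

theorem J_comm (hT : IsC0Group T) (z : ℂ) : J hT z * T 1 = T 1 * J hT z := by
  ext x
  change J hT z (T 1 x) = T 1 (J hT z x)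
  rw [J_apply, J_apply, ← ContinuousLinearMap.intervalIntegral_comp_comm _
    ((hT.continuous_orb z x).intervalIntegrable _ _)]
  congr 1
  funext s
  simp only [orb, map_smul]
  rw [← hT.apply_add, ← hT.apply_add, add_comm]

/-- the operator `1 - e^{-z} T_1` -/
noncomputable def qq (T : ℝ → E →L[ℂ] E) (z : ℂ) : E →L[ℂ] E := 1 - Complex.exp (-z) • T 1

theorem qq_apply (z : ℂ) (x : E) : qq T z x = x - Complex.exp (-z) • T 1 x := rfl

theorem isResolvent_of_inv (hT : IsC0Group T) (z : ℂ) (Q : E →L[ℂ] E) (h1 : qq T z * Q = 1)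
    (h2 : Q * qq T z = 1) : IsResolvent T z (J hT z * Q) := by
  have hJq : J hT z * qq T z = qq T z * J hT z := by
    unfold qq
    rw [mul_sub, sub_mul, mul_one, one_mul, mul_smul_comm, smul_mul_assoc, J_comm]
  have hJQ : J hT z * Q = Q * J hT z := by
    calc J hT z * Q = (Q * qq T z) * (J hT z * Q) := by rw [h2, one_mul]
      _ = Q * (qq T z * J hT z) * Q := by noncomm_ring
      _ = Q * (J hT z * qq T z) * Q := by rw [hJq]
      _ = Q * J hT z * (qq T z * Q) := by noncomm_ring
      _ = Q * J hT z := by rw [h1, mul_one]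
  constructor
  · intro x
    refine ⟨_, J_hasGen hT z (Q x), ?_⟩
    have : qq T z (Q x) = x := by
      have := congrArg (fun L : E →L[ℂ] E => L x) h1
      exact this
    rw [qq_apply] at this
    rw [this]
    change z • J hT z (Q x) - (z • J hT z (Q x) - x) = x
    abel
  · intro x y h
    have h3 : (J hT z * Q) (z • x - y) = Q (J hT z (z • x - y)) := by rw [hJQ]; rfl
    rw [h3, J_of_hasGen hT z h, ← qq_apply]
    exact congrArg (fun L : E →L[ℂ] E => L x) h2

/-- first resolvent identity in the form used below -/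
theorem resolvent_identity {z w : ℂ} {R S : E →L[ℂ] E} (hR : IsResolvent T z R)
    (hS : IsResolvent T w S) (x : E) : R x = S x + (w - z) • R (S x) := by
  obtain ⟨y, hy1, hy2⟩ := hS.1 x
  have h := hR.2 _ _ hy1
  have h2 : z • S x - y = x - (w - z) • S x := by
    calc z • S x - y = (w • S x - y) - (w - z) • S x := by module
      _ = x - (w - z) • S x := by rw [hy2]
  rw [h2, map_sub, map_smul] at h
  exact sub_eq_iff_eq_add.1 h

end Pool.Agent.Helper730_SG
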