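import Mathlib

/-!
# Definitions for MP_e5770a_an: positive groups on an ordered Hilbert space
-/

set_option autoImplicit false

namespace Pool.Agent.Helper730_SG

open Filter Topology

/-- `ι : H → E` exhibits the complex Hilbert space `E` as the complexification `H ⊕ iH` of the real
Hilbert space `H`: `ι` is real linear, it preserves inner products, and every vector of `E` has the
form `ι x + i ι y`. -/
structure IsComplexification (H E : Type*) [NormedAddCommGroup H] [InnerProductSpace ℝ H]
    [NormedAddCommGroup E] [InnerProductSpace ℂ E] (ι : H → E) : Prop where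
  map_add : ∀ x y, ι (x + y) = ι x + ι y
  map_smul : ∀ (r : ℝ) (x : H), ι (r • x) = (r : ℂ) • ι x
  inner_map : ∀ x y, inner ℂ (ι x) (ι y) = ((inner ℝ x y : ℝ) : ℂ)
  exists_re_im : ∀ z, ∃ x y, z = ι x + Complex.I • ι y

/-- `K` is a closed, normal and generating cone in `H`. The order is `x ≤ y` iff `y - x ∈ K`. -/
structure IsOrderCone {H : Type*} [NormedAddCommGroup H] [InnerProductSpace ℝ H]
    (K : Set H) : Prop where
  zero_mem : (0 : H) ∈ K
  add_mem : ∀ x ∈ K, ∀ y ∈ K, x + y ∈ K
  smul_mem : ∀ r : ℝ, 0 ≤ r → ∀ x ∈ K, r • x ∈ K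
  pointed : ∀ x ∈ K, -x ∈ K → x = 0
  closed : IsClosed K
  normal : ∃ c : ℝ, 0 < c ∧ ∀ x y, x ∈ K → y - x ∈ K → ‖x‖ ≤ c * ‖y‖
  generating : ∀ x, ∃ a ∈ K, ∃ b ∈ K, x = a - b

variable {E : Type*} [NormedAddCommGroup E] [InnerProductSpace ℂ E]

/-- `T` is a strongly continuous one-parameter group of bounded operators on `E`. -/
structure IsC0Group (T : ℝ → E →L[ℂ] E) : Prop where
  zero : T 0 = 1
  add : ∀ s t, T (s + t) = T s * T t
  continuous : ∀ x, Continuous fun t => T t x

/-- `x` is in the domain of the generator `A` of `T` and `A x = y`: the orbit `t ↦ T t x` has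
derivative `y` at `t = 0`. -/
def HasGen (T : ℝ → E →L[ℂ] E) (x y : E) : Prop :=
  HasDerivAt (fun t : ℝ => T t x) y 0

/-- `R` is the bounded inverse of `z - A : D(A) → E`, where `A` is the generator of `T`: for every
`x`, `R x ∈ D(A)` and `(z - A) (R x) = x`, and for every `x ∈ D(A)`, `R ((z - A) x) = x`. -/
def IsResolvent (T : ℝ → E →L[ℂ] E) (z : ℂ) (R : E →L[ℂ] E) : Prop :=
  (∀ x, ∃ y, HasGen T (R x) y ∧ z • R x - y = x) ∧ (∀ x y, HasGen T x y → R (z • x - y) = x)

/-- The spectrum of the generator of `T`: the complex numbers `z` for which `z - A : D(A) → E` has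
no bounded inverse. -/
def genSpectrum (T : ℝ → E →L[ℂ] E) : Set ℂ := {z | ¬ ∃ R : E →L[ℂ] E, IsResolvent T z R}

end Pool.Agent.Helper730_SG
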