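import Pool.Agent.Helper730_SG.Basic

/-!
# Growth bound and spectral radius of `T 1`
-/

set_option autoImplicit false

namespace Pool.Agent.Helper730_SG

open Filter Topology MeasureTheory

variable {E : Type*} [NormedAddCommGroup E] [InnerProductSpace ℂ E] [CompleteSpace E]
  {T : ℝ → E →L[ℂ] E}

theorem IsC0Group.nat (hT : IsC0Group T) (n : ℕ) : T n = T 1 ^ n := by
  induction n with
  | zero => simp [hT.zero]
  | succ k ih => rw [Nat.cast_succ, hT.add, ih, pow_succ]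

theorem IsC0Group.mul_neg (hT : IsC0Group T) (s : ℝ) : T s * T (-s) = 1 := by
  rw [← hT.add, add_neg_cancel, hT.zero]

theorem IsC0Group.neg_mul (hT : IsC0Group T) (s : ℝ) : T (-s) * T s = 1 := by
  rw [← hT.add, neg_add_cancel, hT.zero]

theorem IsC0Group.norm_pos [Nontrivial E] (hT : IsC0Group T) (s : ℝ) : 0 < ‖T s‖ := by
  rw [norm_pos_iff]
  intro h
  have h1 := hT.mul_neg s
  rw [h, zero_mul] at h1
  exact zero_ne_one h1

/-- a spectral value of `T 1` of maximal modulus -/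
theorem exists_peripheral [Nontrivial E] (hT : IsC0Group T) :
    ∃ l : ℂ, l ∈ spectrum ℂ (T 1) ∧ l ≠ 0 ∧ (‖l‖₊ : ENNReal) = spectralRadius ℂ (T 1) := by
  obtain ⟨l, hl, hl2⟩ := spectrum.exists_nnnorm_eq_spectralRadius (T 1)
  refine ⟨l, hl, ?_, hl2⟩
  rintro rfl
  apply hl
  rw [spectrum.mem_resolventSet_iff, map_zero, zero_sub]
  have hu : IsUnit (T 1) := ⟨⟨T 1, T (-1), hT.mul_neg 1, hT.neg_mul 1⟩, rfl⟩
  exact hu.neg

theorem norm_pow_tendsto [Nontrivial E] (hT : IsC0Group T) {l : ℂ}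
    (hl : (‖l‖₊ : ENNReal) = spectralRadius ℂ (T 1)) :
    Tendsto (fun n : ℕ => ‖T n‖ ^ (1 / n : ℝ)) atTop (𝓝 ‖l‖) := by
  have h := spectrum.pow_nnnorm_pow_one_div_tendsto_nhds_spectralRadius (T 1)
  rw [← hl] at h
  have h2 := (ENNReal.tendsto_toReal ENNReal.coe_ne_top).comp h
  refine h2.congr fun n => ?_
  simp only [Function.comp]
  rw [← ENNReal.toReal_rpow, ENNReal.coe_toReal, coe_nnnorm, hT.nat]

theorem log_nat_tendsto [Nontrivial E] (hT : IsC0Group T) {l : ℂ} (hl0 : l ≠ 0)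
    (hl : (‖l‖₊ : ENNReal) = spectralRadius ℂ (T 1)) :
    Tendsto (fun n : ℕ => Real.log ‖T n‖ / n) atTop (𝓝 (Real.log ‖l‖)) := by
  have h := (norm_pow_tendsto hT hl).log (norm_ne_zero_iff.2 hl0)
  refine h.congr fun n => ?_
  rw [Real.log_rpow (hT.norm_pos _)]
  ring

theorem log_tendsto [Nontrivial E] (hT : IsC0Group T) {l : ℂ} (hl0 : l ≠ 0)
    (hl : (‖l‖₊ : ENNReal) = spectralRadius ℂ (T 1)) :
    Tendsto (fun t : ℝ => Real.log ‖T t‖ / t) atTop (𝓝 (Real.log ‖l‖)) := by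
  obtain ⟨M, hM1, hM⟩ := hT.exists_bound
  have hlogM : 0 ≤ Real.log M := Real.log_nonneg hM1
  have hM0 : 0 < M := by linarith
  -- comparison of `t` with its integer part
  have hcmp : ∀ t : ℝ, 0 ≤ t → |Real.log ‖T t‖ - Real.log ‖T (⌊t⌋₊ : ℝ)‖| ≤ Real.log M := by
    intro t ht
    set n : ℝ := (⌊t⌋₊ : ℝ) with hn
    have h1 : n ≤ t := Nat.floor_le ht
    have h2 : t < n + 1 := Nat.lt_floor_add_one t
    have e1 : T t = T (t - n) * T n := by rw [← hT.add]; congr 1; ring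
    have e2 : T n = T (n - t) * T t := by rw [← hT.add]; congr 1; ring
    have b1 : ‖T t‖ ≤ M * ‖T n‖ := by
      conv_lhs => rw [e1]
      exact (norm_mul_le _ _).trans (mul_le_mul_of_nonneg_right
        (hM _ ⟨by linarith, by linarith⟩) (norm_nonneg _))
    have b2 : ‖T n‖ ≤ M * ‖T t‖ := by
      conv_lhs => rw [e2]
      exact (norm_mul_le _ _).trans (mul_le_mul_of_nonneg_right
        (hM _ ⟨by linarith, by linarith⟩) (norm_nonneg _))
    have l1 := Real.log_le_log (hT.norm_pos t) b1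
    have l2 := Real.log_le_log (hT.norm_pos n) b2
    rw [Real.log_mul hM0.ne' (hT.norm_pos n).ne'] at l1
    rw [Real.log_mul hM0.ne' (hT.norm_pos t).ne'] at l2
    rw [abs_le]
    constructor <;> linarith
  have h1 : Tendsto (fun t : ℝ => Real.log ‖T (⌊t⌋₊ : ℝ)‖ / (⌊t⌋₊ : ℝ)) atTop
      (𝓝 (Real.log ‖l‖)) := (log_nat_tendsto hT hl0 hl).comp tendsto_nat_floor_atTop
  have h2 : Tendsto (fun t : ℝ => (⌊t⌋₊ : ℝ) / t) atTop (𝓝 1) := tendsto_nat_floor_div_atTop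
  have h3 := h1.mul h2
  rw [mul_one] at h3
  have h4 : Tendsto (fun t : ℝ => Real.log M / t) atTop (𝓝 0) :=
    tendsto_const_nhds.div_atTop tendsto_id
  have h5 : Tendsto (fun t : ℝ => Real.log ‖T t‖ / t -
      Real.log ‖T (⌊t⌋₊ : ℝ)‖ / (⌊t⌋₊ : ℝ) * ((⌊t⌋₊ : ℝ) / t)) atTop (𝓝 0) := by
    apply squeeze_zero_norm' _ h4
    filter_upwards [eventually_ge_atTop (1 : ℝ)] with t ht
    have hf : (⌊t⌋₊ : ℝ) ≠ 0 := by
      have : 1 ≤ ⌊t⌋₊ := Nat.le_floor (by simpa using ht)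
      positivity
    have ht0 : 0 < t := by linarith
    have : Real.log ‖T t‖ / t - Real.log ‖T (⌊t⌋₊ : ℝ)‖ / (⌊t⌋₊ : ℝ) * ((⌊t⌋₊ : ℝ) / t) =
        (Real.log ‖T t‖ - Real.log ‖T (⌊t⌋₊ : ℝ)‖) / t := by
      field_simp
    rw [this, norm_div, Real.norm_eq_abs, Real.norm_eq_abs, abs_of_pos ht0]
    exact div_le_div_of_nonneg_right (hcmp t ht0.le) ht0.le
  have h6 := h5.add h3
  simpa using h6

/-- the Neumann series of `1 - e^{-z} T 1` converges absolutely for `Re z > log r(T 1)` -/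
theorem summable_neumann [Nontrivial E] (hT : IsC0Group T) {l : ℂ} (hl0 : l ≠ 0)
    (hl : (‖l‖₊ : ENNReal) = spectralRadius ℂ (T 1)) {z : ℂ} (hz : Real.log ‖l‖ < z.re) :
    Summable fun n : ℕ => ‖(Complex.exp (-z) • T 1) ^ n‖ := by
  set r : ℝ := (Real.log ‖l‖ + z.re) / 2 with hr
  have hr1 : Real.log ‖l‖ < r := by rw [hr]; linarith
  have hr2 : r < z.re := by rw [hr]; linarith
  have h1 : ∀ᶠ n : ℕ in atTop, Real.log ‖T n‖ / n < r :=
    (log_nat_tendsto hT hl0 hl).eventually (gt_mem_nhds hr1)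
  have h2 : Summable fun n : ℕ => (Real.exp (r - z.re)) ^ n :=
    summable_geometric_of_lt_one (Real.exp_pos _).le (Real.exp_lt_one_iff.2 (by linarith))
  apply Summable.of_norm_bounded_eventually_nat h2
  filter_upwards [h1, eventually_ge_atTop 1] with n hn hn1
  have hn0 : (0 : ℝ) < n := by exact_mod_cast hn1
  rw [norm_norm, smul_pow, norm_smul, norm_pow, Complex.norm_exp, ← hT.nat, Complex.neg_re]
  have h3 : ‖T n‖ ≤ Real.exp (r * n) := by
    rw [← Real.log_le_iff_le_exp (hT.norm_pos _)]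
    rw [div_lt_iff₀ hn0] at hn
    exact hn.le
  calc Real.exp (-z.re) ^ n * ‖T n‖ ≤ Real.exp (-z.re) ^ n * Real.exp (r * n) := by gcongr
    _ = Real.exp (r - z.re) ^ n := by
      rw [← Real.exp_nat_mul, ← Real.exp_nat_mul, ← Real.exp_add]
      congr 1
      ring

/-- the inverse of `1 - e^{-z} T 1` as Neumann series -/
noncomputable def QQ (T : ℝ → E →L[ℂ] E) (z : ℂ) : E →L[ℂ] E :=
  ∑' n : ℕ, (Complex.exp (-z) • T 1) ^ n

theorem QQ_spec {z : ℂ} (h : Summable fun n : ℕ => ‖(Complex.exp (-z) • T 1) ^ n‖) :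
    qq T z * QQ T z = 1 ∧ QQ T z * qq T z = 1 :=
  ⟨h.of_norm.one_sub_mul_tsum_pow, h.of_norm.tsum_pow_mul_one_sub⟩

end Pool.Agent.Helper730_SG
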