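import Mathlib

/-!
# Parseval's identity for continuous Hilbert-space-valued functions on `[0,1]`
-/

set_option autoImplicit false

namespace Pool.Agent.Helper730_SG

open Filter Topology MeasureTheory intervalIntegral

variable {E : Type*} [NormedAddCommGroup E] [InnerProductSpace ℂ E] [CompleteSpace E]

/-- Fourier coefficient on `[0,1]` -/
noncomputable def fc {F : Type*} [NormedAddCommGroup F] [NormedSpace ℂ F] (f : ℝ → F) (k : ℤ) : F :=
  ∫ s in (0 : ℝ)..1, Complex.exp (-(2 * Real.pi * Complex.I * k) * s) • f s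

theorem fc_scalar (g : ℝ → ℂ) (hg : Continuous g) :
    HasSum (fun k => ‖fc g k‖ ^ 2) (∫ s in (0 : ℝ)..1, ‖g s‖ ^ 2) := by
  have hL2 : MemLp g 2 (volume.restrict (Set.Ioc (0 : ℝ) 1)) := by
    obtain ⟨C, hC⟩ := (isCompact_Icc (a := (0 : ℝ)) (b := 1)).exists_bound_of_continuousOn
      hg.continuousOn
    apply MemLp.of_bound hg.aestronglyMeasurable C
    rw [ae_restrict_iff' measurableSet_Ioc]
    exact ae_of_all _ fun s hs => hC s ⟨hs.1.le, hs.2⟩
  have h := hasSum_sq_fourierCoeffOn (zero_lt_one' ℝ) hL2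
  simp only [sub_zero, inv_one, one_smul] at h
  convert h using 3 with k
  rw [fourierCoeffOn_eq_integral]
  simp only [sub_zero, div_one, one_smul, fc]
  have key : ∀ s : ℝ, Complex.exp (-(2 * Real.pi * Complex.I * k) * s) • g s =
      (fourier (-k)) (s : AddCircle ((1 : ℝ) - 0)) • g s := by
    intro s
    rw [fourier_coe_apply]
    congr 2
    push_cast
    ring
  simp_rw [key]

theorem fc_inner (f : ℝ → E) (hf : Continuous f) (e : E) (k : ℤ) :
    inner ℂ e (fc f k) = fc (fun s => inner ℂ e (f s)) k := by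
  unfold fc
  have h : Continuous fun s : ℝ => Complex.exp (-(2 * Real.pi * Complex.I * k) * s) • f s :=
    (by fun_prop : Continuous fun s : ℝ =>
      Complex.exp (-(2 * Real.pi * Complex.I * k) * s)).smul hf
  have := ContinuousLinearMap.intervalIntegral_comp_comm (innerSL ℂ e)
    (h.intervalIntegrable (μ := volume) 0 1)
  simp only [innerSL_apply_apply, inner_smul_right] at this
  rw [← this]
  rfl

/-- Parseval's identity for the projection to a finite dimensional subspace -/
theorem fc_proj (f : ℝ → E) (hf : Continuous f) (V : Submodule ℂ E) [FiniteDimensional ℂ V] :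
    HasSum (fun k => ‖V.starProjection (fc f k)‖ ^ 2)
      (∫ s in (0 : ℝ)..1, ‖V.starProjection (f s)‖ ^ 2) := by
  set b := stdOrthonormalBasis ℂ V with hb
  have hn : ∀ v : E, ‖V.starProjection v‖ ^ 2 = ∑ i, ‖inner ℂ (b i : E) v‖ ^ 2 := by
    intro v
    have h1 := b.sum_sq_norm_inner_right (V.orthogonalProjectionOnto v)
    have h2 : ‖V.starProjection v‖ = ‖V.orthogonalProjectionOnto v‖ := rfl
    rw [h2, ← h1]
    apply Finset.sum_congr rfl
    intro i _
    rw [Submodule.coe_inner]
    congr 2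
    exact (Submodule.inner_starProjection_left_eq_right V (b i : E) v).symm.trans (by
      rw [Submodule.starProjection_eq_self_iff.2 (b i).2])
  simp only [hn]
  have hint : (∫ s in (0 : ℝ)..1, ∑ i, ‖inner ℂ (b i : E) (f s)‖ ^ 2) =
      ∑ i, ∫ s in (0 : ℝ)..1, ‖inner ℂ (b i : E) (f s)‖ ^ 2 := by
    apply intervalIntegral.integral_finsetSum
    intro i _
    apply Continuous.intervalIntegrable
    fun_prop
  rw [hint]
  apply hasSum_sum
  intro i _
  have := fc_scalar (fun s => inner ℂ (b i : E) (f s)) (by fun_prop)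
  simpa only [← fc_inner f hf] using this

/-- Bessel's inequality -/
theorem fc_bessel (f : ℝ → E) (hf : Continuous f) (S : Finset ℤ) :
    ∑ k ∈ S, ‖fc f k‖ ^ 2 ≤ ∫ s in (0 : ℝ)..1, ‖f s‖ ^ 2 := by
  set V : Submodule ℂ E := Submodule.span ℂ ((fun k => fc f k) '' (S : Set ℤ)) with hV
  have : FiniteDimensional ℂ V := FiniteDimensional.span_of_finite ℂ (S.finite_toSet.image _)
  have h1 := fc_proj f hf V
  calc ∑ k ∈ S, ‖fc f k‖ ^ 2 = ∑ k ∈ S, ‖V.starProjection (fc f k)‖ ^ 2 := by
        apply Finset.sum_congr rfl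
        intro k hk
        rw [Submodule.starProjection_eq_self_iff.2]
        exact Submodule.subset_span ⟨k, hk, rfl⟩
    _ ≤ ∑' k, ‖V.starProjection (fc f k)‖ ^ 2 := h1.summable.sum_le_tsum S (fun _ _ => by positivity)
    _ = ∫ s in (0 : ℝ)..1, ‖V.starProjection (f s)‖ ^ 2 := h1.tsum_eq
    _ ≤ ∫ s in (0 : ℝ)..1, ‖f s‖ ^ 2 := by
        apply intervalIntegral.integral_mono_on zero_le_one
        · apply Continuous.intervalIntegrable; fun_prop
        · apply Continuous.intervalIntegrable; fun_prop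
        · intro s _
          apply pow_le_pow_left₀ (norm_nonneg _)
          exact (V.starProjection.le_of_opNorm_le V.starProjection_norm_le _).trans (by rw [one_mul])

theorem fc_summable (f : ℝ → E) (hf : Continuous f) : Summable fun k => ‖fc f k‖ ^ 2 :=
  summable_of_sum_le (fun _ => by positivity) (fc_bessel f hf)

/-- completeness of the trigonometric system -/
theorem fc_complete (f : ℝ → E) (hf : Continuous f) :
    ∫ s in (0 : ℝ)..1, ‖f s‖ ^ 2 ≤ ∑' k, ‖fc f k‖ ^ 2 := by
  apply le_of_forall_pos_le_add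
  intro ε hε
  obtain ⟨δ, hδ, hδε⟩ : ∃ δ : ℝ, 0 < δ ∧ δ ^ 2 ≤ ε :=
    ⟨Real.sqrt ε, Real.sqrt_pos.2 hε, (Real.sq_sqrt hε.le).le⟩
  have hcomp : IsCompact (f '' Set.Icc (0 : ℝ) 1) := isCompact_Icc.image hf
  obtain ⟨t, ht, htfin, hcov⟩ := Metric.totallyBounded_iff.1 hcomp.totallyBounded δ hδ |>.imp
    (fun t h => (⟨trivial, h.1, h.2⟩ : True ∧ _ ∧ _))
  set V : Submodule ℂ E := Submodule.span ℂ t with hV
  have : FiniteDimensional ℂ V := FiniteDimensional.span_of_finite ℂ htfin
  have h1 := fc_proj f hf V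
  have hpt : ∀ s ∈ Set.Icc (0 : ℝ) 1, ‖f s‖ ^ 2 ≤ ‖V.starProjection (f s)‖ ^ 2 + δ ^ 2 := by
    intro s hs
    rw [Submodule.norm_sq_eq_add_norm_sq_starProjection (f s) V]
    gcongr
    obtain ⟨v, hv, hvs⟩ : ∃ v ∈ t, f s ∈ Metric.ball v δ := by
      have := hcov ⟨s, hs, rfl⟩
      simpa using this
    have h2 : Vᗮ.starProjection (f s) = Vᗮ.starProjection (f s - v) := by
      rw [map_sub, (Submodule.starProjection_apply_eq_zero_iff Vᗮ).2
        (V.le_orthogonal_orthogonal (Submodule.subset_span hv)), sub_zero]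
    rw [h2]
    have h3 := Vᗮ.starProjection.le_of_opNorm_le Vᗮ.starProjection_norm_le (f s - v)
    rw [one_mul] at h3
    have h4 : ‖f s - v‖ < δ := by simpa [dist_eq_norm] using hvs
    exact h3.trans h4.le
  calc ∫ s in (0 : ℝ)..1, ‖f s‖ ^ 2 ≤
        ∫ s in (0 : ℝ)..1, (‖V.starProjection (f s)‖ ^ 2 + δ ^ 2) := by
        apply intervalIntegral.integral_mono_on zero_le_one
        · apply Continuous.intervalIntegrable; fun_prop
        · apply Continuous.intervalIntegrable; fun_prop
        · exact hpt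
    _ = (∫ s in (0 : ℝ)..1, ‖V.starProjection (f s)‖ ^ 2) + δ ^ 2 := by
        rw [intervalIntegral.integral_add]
        · simp
        · apply Continuous.intervalIntegrable; fun_prop
        · apply Continuous.intervalIntegrable; fun_prop
    _ = (∑' k, ‖V.starProjection (fc f k)‖ ^ 2) + δ ^ 2 := by rw [h1.tsum_eq]
    _ ≤ (∑' k, ‖fc f k‖ ^ 2) + ε := by
        gcongr with k
        · exact h1.summable
        · exact fc_summable f hf
        · exact (V.starProjection.le_of_opNorm_le V.starProjection_norm_le _).trans (by rw [one_mul])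

end Pool.Agent.Helper730_SG
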