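import Pool.Agent.Helper730_SG.Positive
import Pool.Agent.Helper730_SG.Parseval

/-!
# The growth bound is in the spectrum of the generator
-/

set_option autoImplicit false

namespace Pool.Agent.Helper730_SG

open Filter Topology MeasureTheory

variable {E : Type*} [NormedAddCommGroup E] [InnerProductSpace ℂ E] [CompleteSpace E]
  {T : ℝ → E →L[ℂ] E}

theorem QQ_congr {z w : ℂ} (h : Complex.exp (-z) = Complex.exp (-w)) : QQ T z = QQ T w := by
  unfold QQ; rw [h]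

theorem exp_shift (z : ℂ) (k : ℤ) :
    Complex.exp (-(z + 2 * Real.pi * Complex.I * k)) = Complex.exp (-z) := by
  have : -(z + 2 * Real.pi * Complex.I * k) = -z + (-k : ℤ) * (2 * Real.pi * Complex.I) := by
    push_cast; ring
  rw [this, Complex.exp_add, Complex.exp_int_mul_two_pi_mul_I, mul_one]

theorem J_shift (hT : IsC0Group T) (z : ℂ) (k : ℤ) (x : E) :
    J hT (z + 2 * Real.pi * Complex.I * k) x = fc (orb T z x) k := by
  rw [J_apply]
  unfold fc orb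
  congr 1
  funext s
  rw [smul_smul, ← Complex.exp_add]
  congr 2
  ring

/-- the resolvent given by the Neumann series -/
noncomputable def RR (hT : IsC0Group T) (z : ℂ) : E →L[ℂ] E := J hT z * QQ T z

theorem RR_spec (hT : IsC0Group T) {z : ℂ}
    (h : Summable fun n : ℕ => ‖(Complex.exp (-z) • T 1) ^ n‖) : IsResolvent T z (RR hT z) :=
  isResolvent_of_inv hT z _ (QQ_spec h).1 (QQ_spec h).2

theorem RR_shift (hT : IsC0Group T) (z : ℂ) (k : ℤ) (y : E) :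
    RR hT (z + 2 * Real.pi * Complex.I * k) y = fc (orb T z (QQ T z y)) k := by
  unfold RR
  rw [QQ_congr (exp_shift z k)]
  exact J_shift hT z k _

theorem summable_of_re {a w : ℝ} {z : ℂ} (hz : z.re = a) (ha : w = a)
    (h : Summable fun n : ℕ => ‖(Complex.exp (-(w : ℂ)) • T 1) ^ n‖) :
    (Summable fun n : ℕ => ‖(Complex.exp (-z) • T 1) ^ n‖) ∧
      ‖QQ T z‖ ≤ ∑' n : ℕ, ‖(Complex.exp (-(w : ℂ)) • T 1) ^ n‖ := by
  have e : (fun n : ℕ => ‖(Complex.exp (-z) • T 1) ^ n‖) =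
      fun n : ℕ => ‖(Complex.exp (-(w : ℂ)) • T 1) ^ n‖ := by
    funext n
    rw [smul_pow, smul_pow, norm_smul, norm_smul]
    congr 1
    rw [norm_pow, norm_pow, Complex.norm_exp, Complex.norm_exp, Complex.neg_re, Complex.neg_re,
      hz, Complex.ofReal_re, ha]
  have h2 : Summable fun n : ℕ => ‖(Complex.exp (-z) • T 1) ^ n‖ := by rw [e]; exact h
  refine ⟨h2, ?_⟩
  rw [← e]
  exact norm_tsum_le_tsum_norm h2

/-- uniform bound for the resolvent near the line `Re z = ω` -/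
theorem uniform_bound [Nontrivial E] (hT : IsC0Group T) {P : Set E} {c : ℝ} (hP : IsCone P c)
    (hc : 0 < c) (hpos : ∀ t, ∀ x ∈ P, T t x ∈ P)
    (hgen : ∀ x : E, ∃ p ∈ P, ∃ q ∈ P, ∃ r ∈ P, ∃ s ∈ P, x = (p - q) + Complex.I • (r - s))
    {l : ℂ} (hl0 : l ≠ 0) (hl : (‖l‖₊ : ENNReal) = spectralRadius ℂ (T 1))
    {R0 : E →L[ℂ] E} (hR0 : IsResolvent T (Real.log ‖l‖ : ℝ) R0) :
    ∃ δ : ℝ, 0 < δ ∧ ∃ M : ℝ, 0 ≤ M ∧ ∀ z : ℂ, Real.log ‖l‖ < z.re → z.re < Real.log ‖l‖ + δ →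
      ‖RR hT z‖ ≤ M := by
  set ω := Real.log ‖l‖ with hω
  obtain ⟨δ, hδ, hδR⟩ : ∃ δ : ℝ, 0 < δ ∧ δ * ‖R0‖ ≤ 1 / 2 := by
    refine ⟨1 / (2 * (‖R0‖ + 1)), by positivity, ?_⟩
    rw [div_mul_eq_mul_div, div_le_div_iff₀ (by positivity) (by norm_num)]
    nlinarith [norm_nonneg R0]
  refine ⟨δ, hδ, ?_⟩
  -- real points
  have hreal : ∀ a : ℝ, ω < a → a < ω + δ → ∀ x : E, ‖RR hT (a : ℂ) x‖ ≤ 2 * ‖R0‖ * ‖x‖ := by
    intro a ha1 ha2 x
    have hs : Summable fun n : ℕ => ‖(Complex.exp (-(a : ℂ)) • T 1) ^ n‖ :=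
      summable_neumann hT hl0 hl (by rw [Complex.ofReal_re]; exact ha1)
    have h1 := resolvent_identity hR0 (RR_spec hT hs) x
    have h2 : RR hT (a : ℂ) x = R0 x - ((a : ℂ) - (ω : ℝ)) • R0 (RR hT (a : ℂ) x) := by
      rw [h1]; abel
    have h3 : ‖((a : ℂ) - (ω : ℝ)) • R0 (RR hT (a : ℂ) x)‖ ≤ (1 / 2) * ‖RR hT (a : ℂ) x‖ := by
      rw [norm_smul]
      have : ‖((a : ℂ) - (ω : ℝ))‖ ≤ δ := by
        rw [← Complex.ofReal_sub, Complex.norm_real, Real.norm_eq_abs, abs_of_pos (by linarith)]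
        linarith
      calc ‖((a : ℂ) - (ω : ℝ))‖ * ‖R0 (RR hT (a : ℂ) x)‖
          ≤ δ * (‖R0‖ * ‖RR hT (a : ℂ) x‖) :=
            mul_le_mul this (R0.le_opNorm _) (norm_nonneg _) hδ.le
        _ = (δ * ‖R0‖) * ‖RR hT (a : ℂ) x‖ := by ring
        _ ≤ (1 / 2) * ‖RR hT (a : ℂ) x‖ := mul_le_mul_of_nonneg_right hδR (norm_nonneg _)
    have h4 : ‖RR hT (a : ℂ) x‖ ≤ ‖R0 x‖ + (1 / 2) * ‖RR hT (a : ℂ) x‖ := by
      conv_lhs => rw [h2]
      exact (norm_sub_le _ _).trans (by gcongr)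
    have h5 := R0.le_opNorm x
    linarith
  -- Banach-Steinhaus
  obtain ⟨M, hM⟩ := banach_steinhaus
    (g := fun i : {z : ℂ // ω < z.re ∧ z.re < ω + δ} => RR hT i.1) (fun x => by
      obtain ⟨p, hp, q, hq, r, hr, s, hs, rfl⟩ := hgen x
      set D : ℝ := 2 * (2 * c + 1) * (2 * ‖R0‖) with hD
      have hv : ∀ v ∈ P, ∀ z : ℂ, ω < z.re → z.re < ω + δ → ‖RR hT z v‖ ≤ D * ‖v‖ := by
        intro v hv z hz1 hz2
        have hz : z = (z.re : ℂ) + (z.im : ℂ) * Complex.I := (Complex.re_add_im z).symm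
        have s1 : Summable fun n : ℕ => ‖(Complex.exp (-(z.re : ℂ)) • T 1) ^ n‖ :=
          summable_neumann hT hl0 hl (by rw [Complex.ofReal_re]; exact hz1)
        have s2 : Summable fun n : ℕ =>
            ‖(Complex.exp (-((z.re : ℂ) + (z.im : ℂ) * Complex.I)) • T 1) ^ n‖ := by
          rw [← hz]; exact summable_neumann hT hl0 hl hz1
        have h1 := resolvent_line hT hP hpos s1 s2 hv
        rw [← hz] at h1
        have h2 := hreal z.re hz1 hz2 v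
        calc ‖RR hT z v‖ ≤ 2 * (2 * c + 1) * ‖RR hT (z.re : ℂ) v‖ := h1
          _ ≤ 2 * (2 * c + 1) * (2 * ‖R0‖ * ‖v‖) := by gcongr
          _ = D * ‖v‖ := by rw [hD]; ring
      refine ⟨D * ‖p‖ + D * ‖q‖ + (D * ‖r‖ + D * ‖s‖), fun i => ?_⟩
      change ‖RR hT i.1 ((p - q) + Complex.I • (r - s))‖ ≤ _
      rw [map_add, map_smul, map_sub, map_sub]
      refine (norm_add_le _ _).trans (add_le_add ?_ ?_)
      · exact (norm_sub_le _ _).trans (add_le_add (hv p hp _ i.2.1 i.2.2) (hv q hq _ i.2.1 i.2.2))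
      · rw [norm_smul, Complex.norm_I, one_mul]
        exact (norm_sub_le _ _).trans (add_le_add (hv r hr _ i.2.1 i.2.2) (hv s hs _ i.2.1 i.2.2)))
  exact ⟨max M 0, le_max_right _ _, fun z hz1 hz2 => (hM ⟨z, hz1, hz2⟩).trans (le_max_left _ _)⟩

/-- lower bound for `1 - e^{-z} T 1`, uniform near the line `Re z = ω` (Gearhart-Prüss) -/
theorem lower_bound [Nontrivial E] (hT : IsC0Group T)
    {l : ℂ} (hl0 : l ≠ 0) (hl : (‖l‖₊ : ENNReal) = spectralRadius ℂ (T 1))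
    {δ M : ℝ} (hδ : 0 < δ) (hM0 : 0 ≤ M)
    (hM : ∀ z : ℂ, Real.log ‖l‖ < z.re → z.re < Real.log ‖l‖ + δ → ‖RR hT z‖ ≤ M) :
    ∃ C : ℝ, 0 < C ∧ ∀ z : ℂ, Real.log ‖l‖ < z.re → z.re < Real.log ‖l‖ + δ →
      ∀ x : E, ‖x‖ ≤ C * ‖qq T z x‖ := by
  set ω := Real.log ‖l‖ with hω
  obtain ⟨B, hB1, hB⟩ := hT.exists_bound
  have hB0 : 0 < B := by linarith
  set w : ℝ := ω + δ + 1 with hw
  have hsw : Summable fun n : ℕ => ‖(Complex.exp (-(w : ℂ)) • T 1) ^ n‖ :=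
    summable_neumann hT hl0 hl (by rw [Complex.ofReal_re, ← hω, hw]; linarith)
  set S := ∑' n : ℕ, ‖(Complex.exp (-(w : ℂ)) • T 1) ^ n‖ with hS
  have hS0 : 0 ≤ S := tsum_nonneg fun _ => norm_nonneg _
  set D : ℝ := δ + 1 with hD
  set A : ℝ := |ω| + δ with hA
  set K : ℝ := (1 + D * M) * (Real.exp |w| * B * S) with hK
  have hK0 : 0 ≤ K := by positivity
  refine ⟨Real.exp A * B * K + 1, by positivity, ?_⟩
  intro z hz1 hz2 x
  set y := qq T z x with hy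
  have hsz : Summable fun n : ℕ => ‖(Complex.exp (-z) • T 1) ^ n‖ := summable_neumann hT hl0 hl hz1
  set v : ℂ := (w : ℂ) + (z.im : ℂ) * Complex.I with hv
  have hvre : v.re = w := by simp [hv]
  have hsv := summable_of_re (T := T) hvre rfl hsw
  -- upper bound for the sum at the line `Re = w`
  have hup : ∀ s ∈ Set.Icc (0 : ℝ) 1, ‖orb T v (QQ T v y) s‖ ^ 2 ≤
      (Real.exp |w| * B * S * ‖y‖) ^ 2 := by
    intro s hs
    apply pow_le_pow_left₀ (norm_nonneg _)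
    have h1 := orb_norm_le (T := T) v (QQ T v y) hB hB1 hs
    rw [hvre] at h1
    have h2 : ‖QQ T v y‖ ≤ S * ‖y‖ := (QQ T v).le_of_opNorm_le hsv.2 y
    calc _ ≤ Real.exp |w| * B * ‖QQ T v y‖ := h1
      _ ≤ Real.exp |w| * B * (S * ‖y‖) := by gcongr
      _ = Real.exp |w| * B * S * ‖y‖ := by ring
  have hint : ∫ s in (0 : ℝ)..1, ‖orb T v (QQ T v y) s‖ ^ 2 ≤ (Real.exp |w| * B * S * ‖y‖) ^ 2 := by
    have h1 := intervalIntegral.integral_mono_on (μ := volume) zero_le_one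
      (f := fun s => ‖orb T v (QQ T v y) s‖ ^ 2) (g := fun _ => (Real.exp |w| * B * S * ‖y‖) ^ 2)
      (((hT.continuous_orb v _).norm.pow 2).intervalIntegrable _ _)
      (continuous_const.intervalIntegrable _ _) hup
    simpa using h1
  have hsum1 : Summable fun k : ℤ => ‖fc (orb T v (QQ T v y)) k‖ ^ 2 :=
    fc_summable _ (hT.continuous_orb v _)
  have hle1 : ∑' k : ℤ, ‖fc (orb T v (QQ T v y)) k‖ ^ 2 ≤ (Real.exp |w| * B * S * ‖y‖) ^ 2 :=
    (hsum1.tsum_le_of_sum_le fun F => fc_bessel _ (hT.continuous_orb v _) F).trans hint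
  -- comparison of the two lines
  have hcmp : ∀ k : ℤ, ‖fc (orb T z x) k‖ ^ 2 ≤
      (1 + D * M) ^ 2 * ‖fc (orb T v (QQ T v y)) k‖ ^ 2 := by
    intro k
    rw [← mul_pow]
    apply pow_le_pow_left₀ (norm_nonneg _)
    have h1 : QQ T z y = x := by
      have := congrArg (fun L : E →L[ℂ] E => L x) (QQ_spec hsz).2
      exact this
    have h2 := RR_shift hT z k y
    rw [h1] at h2
    have h3 := RR_shift hT v k y
    rw [← h2, ← h3]
    set zk : ℂ := z + 2 * Real.pi * Complex.I * k with hzk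
    set vk : ℂ := v + 2 * Real.pi * Complex.I * k with hvk
    have hzkre : zk.re = z.re := by simp [hzk]
    have hvkre : vk.re = w := by rw [← hvre]; simp [hvk]
    have rz : IsResolvent T zk (RR hT zk) :=
      RR_spec hT (summable_neumann hT hl0 hl (by rw [hzkre]; exact hz1))
    have rv : IsResolvent T vk (RR hT vk) :=
      RR_spec hT (summable_of_re (T := T) hvkre rfl hsw).1
    rw [resolvent_identity rz rv y]
    have hdiff : ‖vk - zk‖ ≤ D := by
      have : vk - zk = ((w - z.re : ℝ) : ℂ) := by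
        apply Complex.ext <;> simp [hvk, hzk, hv]
      rw [this, Complex.norm_real, Real.norm_eq_abs, abs_of_pos (by rw [hw]; linarith)]
      rw [hw, hD]; linarith
    have hRz : ‖RR hT zk (RR hT vk y)‖ ≤ M * ‖RR hT vk y‖ :=
      (RR hT zk).le_of_opNorm_le (hM zk (by rw [hzkre]; exact hz1) (by rw [hzkre]; exact hz2)) _
    calc ‖RR hT vk y + (vk - zk) • RR hT zk (RR hT vk y)‖
        ≤ ‖RR hT vk y‖ + ‖(vk - zk) • RR hT zk (RR hT vk y)‖ := norm_add_le _ _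
      _ ≤ ‖RR hT vk y‖ + D * (M * ‖RR hT vk y‖) := by
          rw [norm_smul]
          gcongr
      _ = (1 + D * M) * ‖RR hT vk y‖ := by ring
  have hle2 : ∫ s in (0 : ℝ)..1, ‖orb T z x s‖ ^ 2 ≤ (K * ‖y‖) ^ 2 := by
    calc _ ≤ ∑' k : ℤ, ‖fc (orb T z x) k‖ ^ 2 := fc_complete _ (hT.continuous_orb z x)
      _ ≤ ∑' k : ℤ, (1 + D * M) ^ 2 * ‖fc (orb T v (QQ T v y)) k‖ ^ 2 :=
          (fc_summable _ (hT.continuous_orb z x)).tsum_le_tsum hcmp (hsum1.mul_left _)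
      _ = (1 + D * M) ^ 2 * ∑' k : ℤ, ‖fc (orb T v (QQ T v y)) k‖ ^ 2 := tsum_mul_left
      _ ≤ (1 + D * M) ^ 2 * (Real.exp |w| * B * S * ‖y‖) ^ 2 := by gcongr
      _ = (K * ‖y‖) ^ 2 := by rw [hK]; ring
  -- lower bound
  have hlow : ∀ s ∈ Set.Icc (0 : ℝ) 1, (‖x‖ / (Real.exp A * B)) ^ 2 ≤ ‖orb T z x s‖ ^ 2 := by
    intro s hs
    apply pow_le_pow_left₀ (by positivity)
    rw [div_le_iff₀ (by positivity)]
    have h1 : ‖x‖ ≤ B * ‖T s x‖ := by
      conv_lhs => rw [← hT.inv_apply s x]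
      exact (T (-s)).le_of_opNorm_le (hB _ ⟨by linarith [hs.2], by linarith [hs.1]⟩) _
    have h2 : ‖T s x‖ ≤ ‖orb T z x s‖ * Real.exp A := by
      unfold orb
      rw [norm_smul, Complex.norm_exp]
      have h3 : (-z * (s : ℂ)).re = -z.re * s := by simp
      rw [h3]
      have h4 : 1 ≤ Real.exp (-z.re * s) * Real.exp A := by
        rw [← Real.exp_add]
        apply Real.one_le_exp
        have h5 : |z.re| ≤ A := by
          rw [hA, abs_le]
          constructor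
          · linarith [neg_abs_le ω]
          · linarith [le_abs_self ω]
        have h6 : z.re * s ≤ |z.re| := by
          calc z.re * s ≤ |z.re| * s := mul_le_mul_of_nonneg_right (le_abs_self _) hs.1
            _ ≤ |z.re| * 1 := mul_le_mul_of_nonneg_left hs.2 (abs_nonneg _)
            _ = |z.re| := mul_one _
        linarith
      calc ‖T s x‖ = 1 * ‖T s x‖ := (one_mul _).symm
        _ ≤ (Real.exp (-z.re * s) * Real.exp A) * ‖T s x‖ := by gcongr
        _ = Real.exp (-z.re * s) * ‖T s x‖ * Real.exp A := by ring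
    calc ‖x‖ ≤ B * ‖T s x‖ := h1
      _ ≤ B * (‖orb T z x s‖ * Real.exp A) := by gcongr
      _ = ‖orb T z x s‖ * (Real.exp A * B) := by ring
  have hlow2 : (‖x‖ / (Real.exp A * B)) ^ 2 ≤ ∫ s in (0 : ℝ)..1, ‖orb T z x s‖ ^ 2 := by
    have h1 := intervalIntegral.integral_mono_on (μ := volume) zero_le_one
      (f := fun _ => (‖x‖ / (Real.exp A * B)) ^ 2) (g := fun s => ‖orb T z x s‖ ^ 2)
      (continuous_const.intervalIntegrable _ _)
      (((hT.continuous_orb z _).norm.pow 2).intervalIntegrable _ _) hlow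
    simpa using h1
  have hfin : ‖x‖ / (Real.exp A * B) ≤ K * ‖y‖ :=
    le_of_sq_le_sq (hlow2.trans hle2) (by positivity)
  rw [div_le_iff₀ (by positivity)] at hfin
  calc ‖x‖ ≤ K * ‖y‖ * (Real.exp A * B) := hfin
    _ = (Real.exp A * B * K) * ‖y‖ := by ring
    _ ≤ (Real.exp A * B * K + 1) * ‖y‖ := by gcongr; linarith

/-- the growth bound is in the spectrum of the generator -/
theorem mem_genSpectrum [Nontrivial E] (hT : IsC0Group T) {P : Set E} {c : ℝ} (hP : IsCone P c)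
    (hc : 0 < c) (hpos : ∀ t, ∀ x ∈ P, T t x ∈ P)
    (hgen : ∀ x : E, ∃ p ∈ P, ∃ q ∈ P, ∃ r ∈ P, ∃ s ∈ P, x = (p - q) + Complex.I • (r - s))
    {l : ℂ} (hls : l ∈ spectrum ℂ (T 1)) (hl0 : l ≠ 0)
    (hl : (‖l‖₊ : ENNReal) = spectralRadius ℂ (T 1)) :
    ((Real.log ‖l‖ : ℝ) : ℂ) ∈ genSpectrum T := by
  rintro ⟨R0, hR0⟩
  obtain ⟨δ, hδ, M, hM0, hM⟩ := uniform_bound hT hP hc hpos hgen hl0 hl hR0
  obtain ⟨C, hC, hCb⟩ := lower_bound hT hl0 hl hδ hM0 hM
  set ω := Real.log ‖l‖ with hω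
  have hl1 : Complex.exp ((ω : ℂ) + (Complex.arg l : ℂ) * Complex.I) = l := by
    rw [Complex.exp_add, ← Complex.ofReal_exp, hω, Real.exp_log (norm_pos_iff.2 hl0)]
    exact Complex.norm_mul_exp_arg_mul_I l
  set z0 : ℂ := (ω : ℂ) + (Complex.arg l : ℂ) * Complex.I with hz0
  -- choose a point close to `z0`
  have hcont : Tendsto (fun a : ℝ => C * (‖Complex.exp (-((a : ℂ) + (Complex.arg l : ℂ) * Complex.I)) -
      Complex.exp (-z0)‖ * ‖T 1‖)) (𝓝[>] ω) (𝓝 0) := by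
    have h1 : Continuous fun a : ℝ => C * (‖Complex.exp (-((a : ℂ) + (Complex.arg l : ℂ) * Complex.I)) -
      Complex.exp (-z0)‖ * ‖T 1‖) := by fun_prop
    have h2 := (h1.tendsto ω).mono_left (nhdsWithin_le_nhds (s := Set.Ioi ω))
    simpa [hz0] using h2
  have hev := (hcont.eventually (gt_mem_nhds zero_lt_one)).and
    (Ioo_mem_nhdsGT (show ω < ω + δ by linarith))
  obtain ⟨a, ha1, ha2⟩ := hev.exists
  set z : ℂ := (a : ℂ) + (Complex.arg l : ℂ) * Complex.I with hz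
  have hzre : z.re = a := by simp [hz]
  have hsz : Summable fun n : ℕ => ‖(Complex.exp (-z) • T 1) ^ n‖ :=
    summable_neumann hT hl0 hl (by rw [hzre]; exact ha2.1)
  have hQ := QQ_spec hsz
  have hQn : ‖QQ T z‖ ≤ C := by
    apply ContinuousLinearMap.opNorm_le_bound _ hC.le
    intro y
    have h1 := hCb z (by rw [hzre]; exact ha2.1) (by rw [hzre]; exact ha2.2) (QQ T z y)
    have h2 : qq T z (QQ T z y) = y := congrArg (fun L : E →L[ℂ] E => L y) hQ.1
    rw [h2] at h1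
    exact h1
  set W : E →L[ℂ] E := QQ T z * (qq T z - qq T z0) with hW
  have hWn : ‖W‖ < 1 := by
    have h1 : qq T z - qq T z0 = (Complex.exp (-z0) - Complex.exp (-z)) • T 1 := by
      unfold qq; rw [sub_smul]; abel
    calc ‖W‖ ≤ ‖QQ T z‖ * ‖qq T z - qq T z0‖ := norm_mul_le _ _
      _ ≤ C * ‖qq T z - qq T z0‖ := mul_le_mul_of_nonneg_right hQn (norm_nonneg _)
      _ = C * (‖Complex.exp (-z) - Complex.exp (-z0)‖ * ‖T 1‖) := by
          rw [h1, norm_smul, norm_sub_rev]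
      _ < 1 := ha1
  have hu1 : IsUnit (1 - W) := isUnit_one_sub_of_norm_lt_one hWn
  have hu2 : IsUnit (qq T z) := ⟨⟨qq T z, QQ T z, hQ.1, hQ.2⟩, rfl⟩
  have hu3 : IsUnit (qq T z0) := by
    have : qq T z0 = qq T z * (1 - W) := by
      rw [hW, mul_sub, mul_one, ← mul_assoc, hQ.1, one_mul]; abel
    rw [this]
    exact hu2.mul hu1
  apply hls
  rw [spectrum.mem_resolventSet_iff]
  have : (algebraMap ℂ (E →L[ℂ] E)) l - T 1 = l • qq T z0 := by
    unfold qq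
    rw [smul_sub, smul_smul, Complex.exp_neg, hl1, mul_inv_cancel₀ hl0, one_smul,
      Algebra.algebraMap_eq_smul_one]
  rw [this]
  exact (IsUnit.smul (Units.mk0 l hl0) hu3 : _)

end Pool.Agent.Helper730_SG
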