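import Pool.Agent.Helper730_SG.Growth

/-!
# Positivity: the resolvent on vertical lines
-/

set_option autoImplicit false

namespace Pool.Agent.Helper730_SG

open Filter Topology MeasureTheory

variable {E : Type*} [NormedAddCommGroup E] [InnerProductSpace ℂ E] [CompleteSpace E]
  {T : ℝ → E →L[ℂ] E}

/-- a closed convex cone in `E` with the normality estimate -/
structure IsCone (P : Set E) (c : ℝ) : Prop where
  zero_mem : (0 : E) ∈ P
  add_mem : ∀ x ∈ P, ∀ y ∈ P, x + y ∈ P
  smul_mem : ∀ r : ℝ, 0 ≤ r → ∀ x ∈ P, r • x ∈ P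
  closed : IsClosed P
  normal : ∀ x y, x ∈ P → y - x ∈ P → ‖x‖ ≤ c * ‖y‖

theorem IsCone.convex {P : Set E} {c : ℝ} (hP : IsCone P c) : Convex ℝ P :=
  fun _ hx _ hy a b ha hb _ => hP.add_mem _ (hP.smul_mem a ha _ hx) _ (hP.smul_mem b hb _ hy)

theorem IsCone.integral_mem {P : Set E} {c : ℝ} (hP : IsCone P c) {f : ℝ → E} (hf : Continuous f)
    (hfP : ∀ s, f s ∈ P) {b : ℝ} (hb : 0 ≤ b) : ∫ s in (0 : ℝ)..b, f s ∈ P := by
  rcases hb.eq_or_lt with rfl | hb
  · rw [intervalIntegral.integral_same]; exact hP.zero_mem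
  rw [intervalIntegral.integral_of_le hb.le]
  have h0 : volume (Set.Ioc (0 : ℝ) b) ≠ 0 := by simp [hb]
  have ht : volume (Set.Ioc (0 : ℝ) b) ≠ ⊤ := by simp
  have h1 := hP.convex.set_average_mem hP.closed h0 ht (f := f) (ae_of_all _ hfP)
    (hf.integrableOn_Ioc)
  have h2 := measure_smul_setAverage f ht
  rw [← h2]
  exact hP.smul_mem _ measureReal_nonneg _ h1

theorem IsCone.norm_le {P : Set E} {c : ℝ} (hP : IsCone P c) {u v : E} (h1 : u + v ∈ P)
    (h2 : u - v ∈ P) : ‖v‖ ≤ (2 * c + 1) * ‖u‖ := by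
  have h3 : ‖u + v‖ ≤ c * ‖(2 : ℝ) • u‖ := by
    apply hP.normal _ _ h1
    have : (2 : ℝ) • u - (u + v) = u - v := by rw [two_smul]; abel
    rw [this]; exact h2
  rw [norm_smul, Real.norm_eq_abs, abs_two] at h3
  calc ‖v‖ = ‖(u + v) - u‖ := by rw [add_sub_cancel_left]
    _ ≤ ‖u + v‖ + ‖u‖ := norm_sub_le _ _
    _ ≤ (2 * c + 1) * ‖u‖ := by linarith

theorem orb_pow (hT : IsC0Group T) (z : ℂ) (x : E) (n : ℕ) (s : ℝ) :
    orb T z (((Complex.exp (-z) • T 1) ^ n) x) s = orb T z x (s + n) := by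
  rw [smul_pow, ← hT.nat, ← Complex.exp_nat_mul]
  simp only [orb, ContinuousLinearMap.smul_apply, map_smul]
  rw [← hT.apply_add, smul_smul, ← Complex.exp_add]
  congr 2
  push_cast
  ring

theorem sum_J (hT : IsC0Group T) (z : ℂ) (x : E) (N : ℕ) :
    ∑ n ∈ Finset.range N, J hT z (((Complex.exp (-z) • T 1) ^ n) x) =
      ∫ s in (0 : ℝ)..N, orb T z x s := by
  have hc := hT.continuous_orb z x
  induction N with
  | zero => simp
  | succ k ih =>
    rw [Finset.sum_range_succ, ih, J_apply]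
    simp only [orb_pow hT]
    rw [intervalIntegral.integral_comp_add_right, zero_add,
      intervalIntegral.integral_add_adjacent_intervals (hc.intervalIntegrable _ _)
        (hc.intervalIntegrable _ _)]
    congr 1
    push_cast
    ring

/-- the resolvent as limit of Laplace integrals -/
theorem tendsto_resolvent (hT : IsC0Group T) {z : ℂ}
    (h : Summable fun n : ℕ => ‖(Complex.exp (-z) • T 1) ^ n‖) (x : E) :
    Tendsto (fun N : ℕ => ∫ s in (0 : ℝ)..N, orb T z x s) atTop (𝓝 ((J hT z * QQ T z) x)) := by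
  have h1 : HasSum (fun n : ℕ => (Complex.exp (-z) • T 1) ^ n) (QQ T z) := h.of_norm.hasSum
  have h2 : HasSum (fun n : ℕ => ((Complex.exp (-z) • T 1) ^ n) x) (QQ T z x) :=
    h1.mapL (ContinuousLinearMap.apply ℂ E x)
  have h3 : HasSum (fun n : ℕ => J hT z (((Complex.exp (-z) • T 1) ^ n) x)) (J hT z (QQ T z x)) :=
    h2.mapL (J hT z)
  have h4 := h3.tendsto_sum_nat
  simp only [sum_J hT] at h4
  exact h4

/-- positivity estimate for the resolvent on vertical lines -/
theorem resolvent_line (hT : IsC0Group T) {P : Set E} {c : ℝ} (hP : IsCone P c)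
    (hpos : ∀ t, ∀ x ∈ P, T t x ∈ P) {a b : ℝ}
    (ha : Summable fun n : ℕ => ‖(Complex.exp (-(a : ℂ)) • T 1) ^ n‖)
    (hab : Summable fun n : ℕ => ‖(Complex.exp (-(a + b * Complex.I : ℂ)) • T 1) ^ n‖)
    {x : E} (hx : x ∈ P) :
    ‖(J hT (a + b * Complex.I) * QQ T (a + b * Complex.I)) x‖ ≤
      2 * (2 * c + 1) * ‖(J hT a * QQ T a) x‖ := by
  have hc := hT.continuous_orb (a : ℂ) x
  have hGP : ∀ s, orb T (a : ℂ) x s ∈ P := by
    intro s
    have : orb T (a : ℂ) x s = Real.exp (-a * s) • T s x := by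
      unfold orb
      rw [← Complex.coe_smul]
      push_cast
      rfl
    rw [this]
    exact hP.smul_mem _ (Real.exp_pos _).le _ (hpos s x hx)
  have hN : ∀ N : ℕ, ‖∫ s in (0 : ℝ)..N, orb T (a + b * Complex.I) x s‖ ≤
      2 * (2 * c + 1) * ‖∫ s in (0 : ℝ)..N, orb T (a : ℂ) x s‖ := by
    intro N
    set I := ∫ s in (0 : ℝ)..N, orb T (a : ℂ) x s with hI
    have hw : ∀ φ : ℝ → ℝ, Continuous φ → (∀ s, |φ s| ≤ 1) →
        ‖∫ s in (0 : ℝ)..N, φ s • orb T (a : ℂ) x s‖ ≤ (2 * c + 1) * ‖I‖ := by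
      intro φ hφ hφ1
      have hcφ : Continuous fun s => φ s • orb T (a : ℂ) x s := hφ.smul hc
      apply hP.norm_le
      · rw [hI, ← intervalIntegral.integral_add (hc.intervalIntegrable _ _)
          (hcφ.intervalIntegrable _ _)]
        apply hP.integral_mem (hc.add hcφ) _ (Nat.cast_nonneg N)
        intro s
        change orb T (a : ℂ) x s + φ s • orb T (a : ℂ) x s ∈ P
        have : orb T (a : ℂ) x s + φ s • orb T (a : ℂ) x s = (1 + φ s) • orb T (a : ℂ) x s := by
          rw [add_smul, one_smul]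
        rw [this]
        exact hP.smul_mem _ (by linarith [(abs_le.1 (hφ1 s)).1]) _ (hGP s)
      · rw [hI, ← intervalIntegral.integral_sub (hc.intervalIntegrable _ _)
          (hcφ.intervalIntegrable _ _)]
        apply hP.integral_mem (hc.sub hcφ) _ (Nat.cast_nonneg N)
        intro s
        change orb T (a : ℂ) x s - φ s • orb T (a : ℂ) x s ∈ P
        have : orb T (a : ℂ) x s - φ s • orb T (a : ℂ) x s = (1 - φ s) • orb T (a : ℂ) x s := by
          rw [sub_smul, one_smul]
        rw [this]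
        exact hP.smul_mem _ (by linarith [(abs_le.1 (hφ1 s)).2]) _ (hGP s)
    have hcos := hw (fun s => Real.cos (b * s)) (by fun_prop) (fun s => Real.abs_cos_le_one _)
    have hsin := hw (fun s => Real.sin (b * s)) (by fun_prop) (fun s => Real.abs_sin_le_one _)
    have hsplit : ∫ s in (0 : ℝ)..N, orb T (a + b * Complex.I) x s =
        (∫ s in (0 : ℝ)..N, Real.cos (b * s) • orb T (a : ℂ) x s) -
          Complex.I • ∫ s in (0 : ℝ)..N, Real.sin (b * s) • orb T (a : ℂ) x s := by
      have c1 : Continuous fun s : ℝ => Real.cos (b * s) • orb T (a : ℂ) x s :=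
        (by fun_prop : Continuous fun s : ℝ => Real.cos (b * s)).smul hc
      have c2 : Continuous fun s : ℝ => Complex.I • Real.sin (b * s) • orb T (a : ℂ) x s :=
        ((by fun_prop : Continuous fun s : ℝ => Real.sin (b * s)).smul hc).const_smul Complex.I
      rw [← intervalIntegral.integral_smul, ← intervalIntegral.integral_sub
        (c1.intervalIntegrable _ _) (c2.intervalIntegrable _ _)]
      congr 1
      funext s
      have e : Complex.exp (-(a + b * Complex.I) * s) =
          ((Real.cos (b * s) : ℝ) - Complex.I * (Real.sin (b * s) : ℝ)) *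
            Complex.exp (-(a : ℂ) * s) := by
        have : -(a + b * Complex.I) * (s : ℂ) = (-(b * s : ℝ) : ℂ) * Complex.I + -(a : ℂ) * s := by
          push_cast; ring
        rw [this, Complex.exp_add, Complex.exp_mul_I, Complex.cos_neg, Complex.sin_neg,
          ← Complex.ofReal_cos, ← Complex.ofReal_sin]
        ring
      simp only [orb]
      rw [e, ← Complex.coe_smul (Real.cos (b * s)), ← Complex.coe_smul (Real.sin (b * s)),
        mul_smul, sub_smul, mul_smul]
    rw [hsplit]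
    calc _ ≤ ‖∫ s in (0 : ℝ)..N, Real.cos (b * s) • orb T (a : ℂ) x s‖ +
          ‖Complex.I • ∫ s in (0 : ℝ)..N, Real.sin (b * s) • orb T (a : ℂ) x s‖ := norm_sub_le _ _
      _ ≤ (2 * c + 1) * ‖I‖ + (2 * c + 1) * ‖I‖ := by
          rw [norm_smul, Complex.norm_I, one_mul]
          exact add_le_add hcos hsin
      _ = 2 * (2 * c + 1) * ‖I‖ := by ring
  have l1 := (tendsto_resolvent hT hab x).norm
  have l2 := ((tendsto_resolvent hT ha x).norm).const_mul (2 * (2 * c + 1))
  exact le_of_tendsto_of_tendsto' l1 l2 hN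

end Pool.Agent.Helper730_SG
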